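import Pool.Agent.Lib.MP_41b9a7_lc.Final

namespace Pool.Agent.Results.MP_41b9a7_lc.PreemptiveRatio

open Pool.Agent.Lib.MP_41b9a7_lc

/-- Preemptive scheduling with rejection on three machines: there is a deterministic online
algorithm with competitive ratio at most `(2 + √13) / 3 < 2`. -/
theorem result : (2 + √13) / 3 < 2 ∧ ∃ A : POnlineAlgorithm, IsPCompetitive A ((2 + √13) / 3) :=
  ⟨cr_lt_two, palg, palg_competitive⟩

end Pool.Agent.Results.MP_41b9a7_lc.PreemptiveRatio
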